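import Pool.Agent.Helper51.REC.Goals1
import Pool.Agent.Helper42.PP.NZY
import Pool.Agent.Helper90.RP.DUAL

/-!
# Project REC: packet H_H90
-/

set_option autoImplicit false

namespace Pool.Agent.Helper19.REC

open NumberField Module IsDedekindDomain Pool.Agent.Helper51.RP Pool.Agent.Helper51.REC
open Pool.Agent.Helper40.RS (bel)
open Pool.Agent.Helper42.RD (exists_bel conj_of_bel' above_bel ordv_mul ordv_inv ordv_eq_zero_iff)
open Pool.Agent.Helper40.RD (bel_of_above)
open Pool.Agent.Helper42.PP (exists_pull exists_pow ordv_of_val inc)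

section

variable {p : ℕ} [hp : Fact p.Prime] {F E : Type} [Field F] [NumberField F] [Field E]
  [NumberField E] [Algebra F E] {ε : F} {β : Fˣ} {b : E} {σ : E ≃ₐ[F] E}

theorem order_eq (hε : IsPrimitiveRoot ε p) (hk : Kum p ε β b σ) : orderOf σ = p := by
  have hgal := hk.gal
  have hcard : Nat.card (E ≃ₐ[F] E) = p := by
    rw [IsGalois.card_aut_eq_finrank, hk.deg]
  apply orderOf_eq_prime
  · rw [← hcard]
    exact pow_card_eq_one'
  · intro h1
    have h2 := hk.act
    rw [h1] at h2
    have hb : b ≠ 0 := by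
      intro hb
      have h3 := hk.root
      rw [hb, zero_pow hp.out.ne_zero] at h3
      exact β.ne_zero ((map_eq_zero (algebraMap F E)).1 h3.symm)
    have h4 : algebraMap F E ε = 1 := by
      have h5 : (1 : E) * b = algebraMap F E ε * b := by
        rw [one_mul]
        exact h2
      exact (mul_right_cancel₀ hb h5).symm
    have h6 : ε = 1 := by
      apply (algebraMap F E).injective
      rw [h4, map_one]
    exact hε.ne_one hp.out.one_lt h6

theorem prod_aut (hε : IsPrimitiveRoot ε p) (hk : Kum p ε β b σ) (x : E) :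
    algebraMap F E (Algebra.norm F x) = ∏ i ∈ Finset.range p, (σ ^ i) x := by
  classical
  have hgal := hk.gal
  have ho := order_eq hε hk
  rw [Algebra.norm_eq_prod_automorphisms]
  symm
  refine Finset.prod_bij (fun i _ => σ ^ i) (fun i _ => Finset.mem_univ _) ?_ ?_ (fun i _ => rfl)
  · intro i hi j hj hij
    rw [Finset.mem_range] at hi hj
    exact pow_injOn_Iio_orderOf (by rw [ho]; exact hi) (by rw [ho]; exact hj) hij
  · intro g _
    obtain ⟨i, hi, hg⟩ := exists_pow σ (by rw [ho, hk.deg]) g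
    rw [hk.deg] at hi
    exact ⟨i, Finset.mem_range.2 hi, hg⟩

theorem hil (hε : IsPrimitiveRoot ε p) (hk : Kum p ε β b σ) (x : E)
    (hx : ∏ i ∈ Finset.range p, (σ ^ i) x = 1) : ∃ z : Eˣ, (z : E) / σ z = x := by
  have hgal := hk.gal
  have ho := order_eq hε hk
  have hn : Algebra.norm F x = 1 := by
    apply (algebraMap F E).injective
    rw [prod_aut hε hk, hx, map_one]
  have hgen : ∀ g : E ≃ₐ[F] E, g ∈ Subgroup.zpowers σ := fun g => by
    obtain ⟨i, -, hg⟩ := exists_pow σ (by rw [ho, hk.deg]) g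
    rw [← hg]
    exact Subgroup.pow_mem _ (Subgroup.mem_zpowers σ) i
  have hcyc : IsCyclic (E ≃ₐ[F] E) := ⟨σ, hgen⟩
  exact groupCohomology.exists_div_of_norm_eq_one (g := σ) hgen hn

variable {S : Set (HeightOneSpectrum (𝓞 F))}

theorem mem_upS (w : HeightOneSpectrum (𝓞 E)) : w ∈ upS E S ↔ bel F w ∈ S := by
  constructor
  · rintro ⟨v, hv, ha⟩
    rw [bel_of_above ha]
    exact hv
  · intro h
    exact ⟨_, h, above_bel w⟩

omit hp in
theorem const_pow (hk : Kum p ε β b σ) {t : Eˣ}
    (ht : ∀ w ∉ upS E S, ordv w (σ (t : E)) = ordv w (t : E)) (i : ℕ) :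
    ∀ w ∉ upS E S, ordv w ((σ ^ i) (t : E)) = ordv w (t : E) := by
  have hgal := hk.gal
  induction i with
  | zero => intro w _; rfl
  | succ i ih =>
    intro w hw
    obtain ⟨w', h1, h2⟩ := exists_pull (K := F) w σ
    have hw' : w' ∉ upS E S := by
      rw [mem_upS] at hw ⊢
      rw [h2]
      exact hw
    have e1 : (σ ^ (i + 1)) (t : E) = σ ((σ ^ i) (t : E)) := by
      rw [pow_succ']
      rfl
    rw [e1, ordv_of_val h1, ih w' hw', ← ordv_of_val h1, ht w hw]

theorem const_fib (hε : IsPrimitiveRoot ε p) (hk : Kum p ε β b σ) {t : Eˣ}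
    (ht : ∀ w ∉ upS E S, ordv w (σ (t : E)) = ordv w (t : E)) {w w' : HeightOneSpectrum (𝓞 E)}
    (hw : w' ∉ upS E S) (h : bel F w' = bel F w) : ordv w' (t : E) = ordv w (t : E) := by
  have hgal := hk.gal
  obtain ⟨g, hg⟩ := conj_of_bel' (K := F) h
  obtain ⟨i, -, hi⟩ := exists_pow σ (by rw [order_eq hε hk, hk.deg]) g
  have h1 := ordv_of_val hg (t : E)
  rw [← hi, const_pow hk ht i w' hw] at h1
  exact h1

end

/-- **H_H90.** -/
theorem h_h90 (h1 : H_RAM) : H_H90 := by
  classical
  intro p hp F E _ _ _ _ _ ε S β b σ hs hk σU hσ T hT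
  have hgal := hk.gal
  have hpow : ∀ (i : ℕ) (u : (upS E S).unit E),
      ((((σU ^ i : MulAut ((upS E S).unit E)) u : (upS E S).unit E) : Eˣ) : E) =
        (σ ^ i) ((u : Eˣ) : E) := by
    intro i
    induction i with
    | zero => intro u; rfl
    | succ i ih =>
      intro u
      have e1 : (σU ^ (i + 1) : MulAut ((upS E S).unit E)) u =
          σU ((σU ^ i : MulAut ((upS E S).unit E)) u) := by
        rw [pow_succ']
        rfl
      have e2 : (σ ^ (i + 1)) ((u : Eˣ) : E) = σ ((σ ^ i) ((u : Eˣ) : E)) := by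
        rw [pow_succ']
        rfl
      rw [e1, hσ, ih, e2]
  have hz : ∀ u : (nmG p σU).ker, ∃ z : Eˣ, (z : E) / σ z = (((u : (upS E S).unit E) : Eˣ) : E) := by
    intro u
    apply hil hs.prim hk
    have h2 : nmG p σU (u : (upS E S).unit E) = 1 := u.2
    unfold nmG at h2
    rw [MonoidHom.finsetProd_apply] at h2
    have h3 := congrArg ((Units.coeHom E).comp ((upS E S).unit E).subtype) h2
    rw [map_prod, map_one] at h3
    rw [← h3]
    refine Finset.prod_congr rfl fun i _ => ?_
    exact (hpow i _).symm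
  choose z hz using hz
  choose w₀ hw₀ using fun W : HeightOneSpectrum (𝓞 F) => exists_bel (M₁ := E) W
  have hval1 : ∀ W ∉ S, W.valuation F (p : F) = 1 := by
    intro W hW
    by_contra hne
    have hle : W.valuation F (p : F) ≤ 1 := by
      have := W.valuation_le_one (K := F) (p : 𝓞 F)
      simpa using this
    exact hW (hs.abp W (lt_of_le_of_ne hle hne))
  have claim : ∀ u u' : (nmG p σU).ker,
      (∀ W ∈ T, ((ordv (w₀ W) (z u : E) : ℤ) : ZMod p) = ((ordv (w₀ W) (z u' : E) : ℤ) : ZMod p)) →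
      ((u : (upS E S).unit E))⁻¹ * (u' : (upS E S).unit E) ∈ (dfG σU).range := by
    intro u u' hu
    set t : Eˣ := z u' * (z u)⁻¹ with ht
    have hsz : ∀ x : Eˣ, σ (x : E) ≠ 0 := fun x => by
      rw [map_ne_zero_iff _ σ.injective]
      exact x.ne_zero
    have htt : (t : E) / σ (t : E) = (((u' : (upS E S).unit E) : Eˣ) : E) /
        (((u : (upS E S).unit E) : Eˣ) : E) := by
      rw [← hz, ← hz, ht]
      push_cast
      rw [map_mul, map_inv₀]
      have a1 := hsz (z u)
      have a2 := hsz (z u')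
      have a3 := (z u).ne_zero
      have a4 := (z u').ne_zero
      field_simp
    have hsig : ∀ w ∉ upS E S, ordv w (σ (t : E)) = ordv w (t : E) := by
      intro w hw
      have b1 := (u : (upS E S).unit E).2 w hw
      have b2 := (u' : (upS E S).unit E).2 w hw
      have b3 : w.valuation E ((t : E) / σ (t : E)) = 1 := by
        rw [htt, map_div₀, b1, b2, div_one]
      rw [map_div₀, div_eq_one_iff_eq ((Valuation.ne_zero_iff _).2 (hsz t))] at b3
      unfold ordv
      rw [b3]
    have hdv : ∀ W ∈ T, (p : ℤ) ∣ ordv (w₀ W) (t : E) := by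
      intro W hW
      have c1 := hu W hW
      rw [ZMod.intCast_eq_intCast_iff_dvd_sub] at c1
      rw [ht]
      push_cast
      rw [ordv_mul _ (z u').ne_zero (inv_ne_zero (z u).ne_zero), ordv_inv _ (z u).ne_zero,
        ← sub_eq_add_neg]
      exact c1
    have hfin : (Function.support fun W : HeightOneSpectrum (𝓞 F) =>
        if W ∈ S then (0 : ℤ) else if W ∈ T then ordv (w₀ W) (t : E) / p
          else ordv (w₀ W) (t : E)).Finite := by
      refine ((Pool.Agent.Helper90.RP.Dual.finite_ordv (t : E) t.ne_zero).image (bel F)).subset ?_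
      intro W hW
      refine ⟨w₀ W, ?_, hw₀ W⟩
      intro h0
      apply hW
      simp only
      rw [h0]
      simp
    obtain ⟨y, hy⟩ := hs.prin (Finsupp.ofSupportFinite _ hfin)
    have hyE : ∀ w ∉ upS E S, ordv w (algebraMap F E (y : F)) = ordv w (t : E) := by
      intro w hw
      have hW : bel F w ∉ S := by
        rw [mem_upS] at hw
        exact hw
      obtain ⟨r1, r2⟩ := h1 p F E ε β b σ hs.prim hk (bel F w) (hval1 _ hW)
      have hyW := hy _ hW
      rw [Finsupp.ofSupportFinite_coe] at hyW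
      simp only [if_neg hW] at hyW
      have hcf : ordv w (t : E) = ordv (w₀ (bel F w)) (t : E) :=
        const_fib hs.prim hk hsig hw (hw₀ _).symm
      by_cases hd : (p : ℤ) ∣ ordv (bel F w) (β : F)
      · have hnT : bel F w ∉ T := fun h => ((hT _).1 h).2 hd
        rw [if_neg hnT] at hyW
        rw [r1 hd w (above_bel w), hyW, hcf]
      · have hWT : bel F w ∈ T := (hT _).2 ⟨hW, hd⟩
        rw [if_pos hWT] at hyW
        rw [((r2 hd).2 w (above_bel w)).1, hyW, Int.mul_ediv_cancel' (hdv _ hWT), hcf]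
    have hunit : t * (inc F E y)⁻¹ ∈ (upS E S).unit E := by
      intro w hw
      have hne : (algebraMap F E (y : F)) ≠ 0 := (map_ne_zero _).2 y.ne_zero
      rw [← ordv_eq_zero_iff _ (t * (inc F E y)⁻¹).ne_zero]
      push_cast
      have e3 : ((inc F E y : Eˣ) : E) = algebraMap F E (y : F) := rfl
      rw [e3, ordv_mul _ t.ne_zero (inv_ne_zero hne), ordv_inv _ hne, hyE w hw]
      ring
    refine ⟨⟨_, hunit⟩, ?_⟩
    apply Subtype.ext
    apply Units.ext
    have e4 : (dfG σU) ⟨t * (inc F E y)⁻¹, hunit⟩ =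
        ⟨t * (inc F E y)⁻¹, hunit⟩ / σU ⟨t * (inc F E y)⁻¹, hunit⟩ := rfl
    rw [e4]
    have e5 := hσ ⟨t * (inc F E y)⁻¹, hunit⟩
    have hne : (algebraMap F E (y : F)) ≠ 0 := (map_ne_zero _).2 y.ne_zero
    have e3 : ((inc F E y : Eˣ) : E) = algebraMap F E (y : F) := rfl
    have e6 : σ (algebraMap F E (y : F)) = algebraMap F E (y : F) := σ.commutes _
    have e7 := hsz t
    simp only [Subgroup.coe_div, Units.val_div_eq_div_val, e5, Subgroup.coe_mul,
      Subgroup.coe_inv, Units.val_mul, Units.val_inv_eq_inv_val, e3, map_mul, map_inv₀, e6]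
    rw [mul_div_mul_right _ _ (inv_ne_zero hne), htt, div_eq_mul_inv, mul_comm]
  rw [Subgroup.relIndex, Subgroup.index]
  have hcard : Nat.card (T → ZMod p) = p ^ T.card := by
    rw [Nat.card_fun, Nat.card_zmod]
    simp
  rw [← hcard]
  refine Nat.card_le_card_of_injective (fun q => fun W : T =>
    ((ordv (w₀ W) (z (Quotient.out q) : E) : ℤ) : ZMod p)) ?_
  intro q q' hqq
  have h5 := claim (Quotient.out q) (Quotient.out q') fun W hW => congrFun hqq ⟨W, hW⟩
  rw [← QuotientGroup.out_eq' q, ← QuotientGroup.out_eq' q', QuotientGroup.eq,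
    Subgroup.mem_subgroupOf]
  exact h5

end Pool.Agent.Helper19.REC
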